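import Mathlib

set_option autoImplicit false

/-!
Continuous characters separate the points of a locally compact abelian group.  The proof applies
the Gelfand transform to the bicommutant of the regular representation.
-/

namespace Pool.Agent.Lib.MP_607283_al

open scoped Topology Pointwise
open Set Filter MeasureTheory

variable {A : Type*} [CommGroup A] [TopologicalSpace A] [IsTopologicalGroup A]

open scoped IsMulCommutative in
theorem exists_char_of_cstar {B : Type*} [CStarAlgebra B] (lam : A →* B)
    (hstar : ∀ a, star (lam a) = lam a⁻¹) (T : B)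
    (hT : ∀ R : B, (∀ a, lam a * R = R * lam a) → T * R = R * T)
    (hc : ContinuousAt (fun a => lam a * T) 1) {a0 : A} (h0 : lam a0 * T ≠ T) :
    ∃ χ : A →ₜ* Circle, χ a0 ≠ 1 := by
  let s : Set B := range lam
  have hss : s ∪ star s = s := by
    refine union_eq_self_of_subset_right ?_
    intro x hx
    obtain ⟨a, ha⟩ := Set.mem_star.1 hx
    exact ⟨a⁻¹, by rw [← hstar, ha, star_star]⟩
  let S : StarSubalgebra ℂ B :=
    StarSubalgebra.centralizer ℂ (StarSubalgebra.centralizer ℂ s : Set B)
  have hS : (S : Set B) = s.centralizer.centralizer := by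
    have := StarSubalgebra.coe_centralizer_centralizer ℂ s
    rw [hss] at this
    exact this
  have hScl : IsClosed (S : Set B) := by rw [hS]; exact Set.isClosed_centralizer _
  have hcomm : ∀ x ∈ s, ∀ y ∈ s, x * y = y * x := by
    rintro _ ⟨a, rfl⟩ _ ⟨b, rfl⟩
    rw [← map_mul, ← map_mul, mul_comm]
  have hScomm : IsMulCommutative S := ⟨⟨fun x y => Subtype.ext (by
    have hx : (x : B) ∈ s.centralizer.centralizer := hS ▸ x.2
    have hy : (y : B) ∈ s.centralizer.centralizer := hS ▸ y.2
    exact Set.centralizer_centralizer_comm_of_comm hcomm _ hx _ hy)⟩⟩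
  let _ : CommCStarAlgebra S := { }
  have hlam : ∀ a, lam a ∈ S := fun a => by
    rw [← SetLike.mem_coe, hS]
    exact Set.subset_centralizer_centralizer (mem_range_self a)
  have hTS : T ∈ S := by
    rw [← SetLike.mem_coe, hS]
    intro R hR
    exact (hT R fun a => hR _ (mem_range_self a)).symm
  let L : A →* S := lam.codRestrict S hlam
  let T' : S := ⟨T, hTS⟩
  have hne : L a0 * T' ≠ T' := fun h => h0 (congrArg Subtype.val h)
  obtain ⟨ω, hω⟩ : ∃ ω : WeakDual.characterSpace ℂ S, ω (L a0 * T') ≠ ω T' := by
    by_contra hcon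
    push Not at hcon
    exact hne ((gelfandTransform_isometry S).injective (ContinuousMap.ext hcon))
  rw [map_mul] at hω
  have hωT : ω T' ≠ 0 := fun h => hω (by rw [h, mul_zero])
  have hω0 : ω (L a0) ≠ 1 := fun h => hω (by rw [h, one_mul])
  have hnorm : ∀ a, ‖ω (L a)‖ = 1 := by
    intro a
    have h1 : star (L a) * L a = 1 := Subtype.ext (by
      change star (lam a) * lam a = 1
      rw [hstar, ← map_mul, inv_mul_cancel, map_one])
    have h2 := congrArg ω h1
    rw [map_mul, map_star, map_one] at h2
    have h3 := congrArg norm h2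
    rw [norm_mul, norm_star, norm_one] at h3
    nlinarith [norm_nonneg (ω (L a))]
  let χ0 : A →* Circle :=
    { toFun := fun a => ⟨ω (L a), mem_sphere_zero_iff_norm.2 (hnorm a)⟩
      map_one' := Subtype.ext (by simp)
      map_mul' := fun a b => Subtype.ext (by simp) }
  have hχc : Continuous χ0 := by
    refine continuous_of_continuousAt_one χ0 ?_
    have h1 : ContinuousAt (fun a => L a * T') 1 := by
      rw [Topology.IsInducing.subtypeVal.continuousAt_iff]
      exact hc
    have h2 : ContinuousAt (fun a => ω (L a * T') / ω T') 1 :=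
      ((map_continuous ω).continuousAt.comp h1).div_const _
    refine (Topology.IsInducing.subtypeVal (t := Metric.sphere (0 : ℂ) 1)).continuousAt_iff.2 ?_
    refine h2.congr (Eventually.of_forall fun a => ?_)
    change ω (L a * T') / ω T' = ω (L a)
    rw [map_mul, mul_div_assoc, div_self hωT, mul_one]
  exact ⟨⟨χ0, hχc⟩, fun h => hω0 (congrArg Subtype.val h)⟩

theorem exists_char_of_rep [T2Space A] [LocallyCompactSpace A] {Hs : Type*}
    [NormedAddCommGroup Hs] [InnerProductSpace ℂ Hs] [CompleteSpace Hs]
    (lam : A →* (Hs →L[ℂ] Hs)) (hiso : ∀ a x, ‖lam a x‖ = ‖x‖)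
    (hcont : ∀ x, Continuous fun a => lam a x) {a0 : A} {ξ : Hs} (h0 : lam a0 ξ ≠ ξ) :
    ∃ χ : A →ₜ* Circle, χ a0 ≠ 1 := by
  borelize A
  let μ : Measure A := Measure.haar
  have hmul : ∀ a b x, lam a (lam b x) = lam (a * b) x := fun a b x => by rw [map_mul]; rfl
  have hinner : ∀ a x y, inner ℂ (lam a x) (lam a y) = inner ℂ x y := fun a =>
    (LinearMap.norm_map_iff_inner_map_map (lam a)).1 (hiso a)
  have hstar : ∀ a, star (lam a) = lam a⁻¹ := by
    intro a
    symm
    rw [ContinuousLinearMap.star_eq_adjoint, ContinuousLinearMap.eq_adjoint_iff]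
    intro x y
    rw [← hinner a, hmul, mul_inv_cancel, map_one]
    rfl
  set η := lam a0 ξ - ξ with hη
  have hη0 : η ≠ 0 := sub_ne_zero.2 h0
  let g : A → ℝ := fun a => (inner ℂ η (lam a η)).re
  have hgc : Continuous g := Complex.continuous_re.comp (continuous_const.inner (hcont η))
  have hg1 : 0 < g 1 := by
    have : g 1 = ‖η‖ ^ 2 := by
      simp only [g, map_one, one_apply_eq_self]
      exact inner_self_eq_norm_sq (𝕜 := ℂ) η
    rw [this]
    positivity
  obtain ⟨f, hf1, hfc, hfs, hf01⟩ := exists_continuousMap_one_of_isCompact_subset_isOpen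
    (isCompact_singleton (x := (1 : A))) (isOpen_lt continuous_const hgc)
    (singleton_subset_iff.2 hg1)
  have hfc' : HasCompactSupport f := hfc
  have hf1' : f 1 = 1 := hf1 rfl
  have hint : ∀ (b : A) (x : Hs), Integrable (fun a => f (b * a) • lam a x) μ := by
    intro b x
    refine Continuous.integrable_of_hasCompactSupport
      ((f.continuous.comp (continuous_const.mul continuous_id)).smul (hcont x)) ?_
    exact HasCompactSupport.smul_right (f := fun a => f (b * a)) (f' := fun a => lam a x)
      (hfc'.comp_homeomorph (Homeomorph.mulLeft b))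
  have hint1 : ∀ x : Hs, Integrable (fun a => f a • lam a x) μ := fun x => by
    simpa using hint 1 x
  have hfi : ∀ b : A, Integrable (fun a => f (b * a)) μ := fun b =>
    Continuous.integrable_of_hasCompactSupport
      (f.continuous.comp (continuous_const.mul continuous_id))
      (hfc'.comp_homeomorph (Homeomorph.mulLeft b))
  have hfi1 : Integrable f μ := by simpa using hfi 1
  let T0 : Hs →ₗ[ℂ] Hs :=
    { toFun := fun x => ∫ a, f a • lam a x ∂μ
      map_add' := fun x y => by
        rw [← integral_add (hint1 x) (hint1 y)]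
        simp only [map_add, smul_add]
      map_smul' := fun c x => by
        rw [RingHom.id_apply, ← integral_smul]
        simp only [map_smul]
        exact integral_congr_ae (Eventually.of_forall fun a => smul_comm _ _ _) }
  have hT0 : ∀ x, ‖T0 x‖ ≤ (∫ a, ‖f a‖ ∂μ) * ‖x‖ := by
    intro x
    refine (norm_integral_le_integral_norm _).trans (le_of_eq ?_)
    rw [← integral_mul_const]
    simp only [norm_smul, hiso]
  let T : Hs →L[ℂ] Hs := T0.mkContinuous _ hT0
  have hTa : ∀ x, T x = ∫ a, f a • lam a x ∂μ := fun _ => rfl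
  have hRT : ∀ (R : Hs →L[ℂ] Hs) (x : Hs), R (T x) = ∫ a, f a • R (lam a x) ∂μ := by
    intro R x
    rw [hTa, ← R.integral_comp_comm (hint1 x)]
    simp only [R.map_smul_of_tower]
  have hT : ∀ R : Hs →L[ℂ] Hs, (∀ a, lam a * R = R * lam a) → T * R = R * T := by
    intro R hR
    ext x
    rw [mul_apply_eq_comp, mul_apply_eq_comp, hRT, hTa]
    refine integral_congr_ae (Eventually.of_forall fun a => ?_)
    have := congrArg (fun S : Hs →L[ℂ] Hs => S x) (hR a)
    simp only [mul_apply_eq_comp] at this
    simp only [this]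
  refine exists_char_of_cstar lam hstar T hT ?_ ?_
  · have hb : ∀ b x, lam b (T x) = ∫ a, f (b⁻¹ * a) • lam a x ∂μ := by
      intro b x
      rw [hRT, ← integral_mul_left_eq_self (fun a => f (b⁻¹ * a) • lam a x) b]
      simp only [inv_mul_cancel_left, hmul]
    have hbd : ∀ b, ‖lam b * T - T‖ ≤ ∫ a, ‖f (b⁻¹ * a) - f a‖ ∂μ := by
      intro b
      refine ContinuousLinearMap.opNorm_le_bound _ (integral_nonneg fun a => norm_nonneg _) ?_
      intro x
      rw [sub_apply, mul_apply_eq_comp, hb, hTa,
        ← integral_sub (hint _ x) (hint1 x)]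
      refine (norm_integral_le_integral_norm _).trans (le_of_eq ?_)
      rw [← integral_mul_const]
      simp only [← sub_smul, norm_smul, hiso]
    obtain ⟨U, hUc, hU⟩ := exists_compact_mem_nhds (1 : A)
    have hco : ContinuousOn (fun b : A => ∫ a, ‖f (b⁻¹ * a) - f a‖ ∂μ) U := by
      refine continuousOn_integral_of_compact_support (k := U * tsupport f ∪ tsupport f)
        ((hUc.mul hfc).union hfc) (Continuous.continuousOn ?_) ?_
      · change Continuous fun p : A × A => ‖f (p.1⁻¹ * p.2) - f p.2‖
        fun_prop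
      · intro b a hb ha
        rw [mem_union, not_or] at ha
        have h1 : f a = 0 := image_eq_zero_of_notMem_tsupport ha.2
        have h2 : f (b⁻¹ * a) = 0 := image_eq_zero_of_notMem_tsupport fun h =>
          ha.1 ⟨b, hb, _, h, by simp⟩
        simp [h1, h2]
    have hlim : Tendsto (fun b : A => ∫ a, ‖f (b⁻¹ * a) - f a‖ ∂μ) (𝓝 1) (𝓝 0) := by
      have := (hco.continuousAt hU).tendsto
      simpa using this
    rw [ContinuousAt, map_one, one_mul, tendsto_iff_norm_sub_tendsto_zero]
    exact squeeze_zero (fun _ => norm_nonneg _) hbd hlim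
  · intro h
    have h1 : T η = 0 := by
      have h2 := hT (lam a0) fun a => by rw [← map_mul, ← map_mul, mul_comm]
      rw [h] at h2
      have h3 := congrArg (fun S : Hs →L[ℂ] Hs => S ξ) h2
      simp only [mul_apply_eq_comp] at h3
      rw [hη, map_sub, h3, sub_self]
    have h4 : (inner ℂ η (T η)).re = ∫ a, f a * g a ∂μ := by
      rw [hTa, ← integral_inner (hint1 η)]
      have hi : Integrable (fun a => inner ℂ η (f a • lam a η)) μ := (hint1 η).const_inner η
      have := integral_re hi
      simp only [RCLike.re_to_complex] at this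
      rw [← this]
      refine integral_congr_ae (Eventually.of_forall fun a => ?_)
      simp only [g]
      rw [← Complex.coe_smul, inner_smul_right]
      simp
    have h5 : 0 < ∫ a, f a * g a ∂μ := by
      refine Continuous.integral_pos_of_hasCompactSupport_nonneg_nonzero (x := 1)
        (f.continuous.mul hgc) hfc'.mul_right ?_ ?_
      · intro a
        by_cases ha : a ∈ tsupport f
        · exact mul_nonneg (hf01 a).1 (le_of_lt (hfs ha))
        · simp [image_eq_zero_of_notMem_tsupport ha]
      · rw [hf1', one_mul]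
        exact hg1.ne'
    rw [← h4, h1] at h5
    simp at h5

/-- Characters separate the points of a locally compact abelian group. -/
theorem exists_char [T2Space A] [LocallyCompactSpace A] {a0 : A} (h0 : a0 ≠ 1) :
    ∃ χ : A →ₜ* Circle, χ a0 ≠ 1 := by
  borelize A
  let μ : Measure A := Measure.haar
  have : Fact ((2 : ENNReal) ≠ ⊤) := ⟨by simp⟩
  let l0 : A → Lp ℂ 2 μ →ₗ[ℂ] Lp ℂ 2 μ := fun a =>
    { toFun := fun x => DomMulAct.mk a • x
      map_add' := fun x y => smul_add _ _ _
      map_smul' := fun c x => smul_comm _ _ _ }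
  let lam : A →* (Lp ℂ 2 μ →L[ℂ] Lp ℂ 2 μ) :=
    { toFun := fun a => (l0 a).mkContinuous 1 fun x => by
        rw [one_mul]; exact (DomMulAct.norm_smul_Lp _ _).le
      map_one' := by
        ext1 x
        exact one_smul Aᵈᵐᵃ x
      map_mul' := fun a b => by
        ext1 x
        change DomMulAct.mk (a * b) • x = DomMulAct.mk a • DomMulAct.mk b • x
        rw [mul_comm, DomMulAct.mk_mul, mul_smul] }
  have hl : ∀ a x, lam a x = DomMulAct.mk a • x := fun _ _ => rfl
  obtain ⟨f, hf1, hf0, hfc, -⟩ := exists_continuous_one_zero_of_isCompact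
    (isCompact_singleton (x := (1 : A))) (isClosed_singleton (x := a0))
    (disjoint_singleton.2 h0.symm)
  let F : A → ℂ := fun a => f a
  have hFc : Continuous F := Complex.continuous_ofReal.comp f.continuous
  have hFs : HasCompactSupport F := hfc.comp_left (g := fun r : ℝ => (r : ℂ)) Complex.ofReal_zero
  have hF : MemLp F 2 μ := hFc.memLp_of_hasCompactSupport hFs
  refine exists_char_of_rep lam (fun a x => DomMulAct.norm_smul_Lp _ _) ?_ (ξ := hF.toLp F) ?_
  · intro x
    change Continuous fun a : A => DomMulAct.mk a • x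
    exact DomMulAct.continuous_mk.smul continuous_const
  · intro h
    rw [hl, DomMulAct.mk_smul_toLp, MemLp.toLp_eq_toLp_iff] at h
    have h2 := (Continuous.ae_eq_iff_eq μ (hFc.comp (continuous_const_smul a0)) hFc).1 h
    have h3 := congrFun h2 1
    have e1 : f 1 = 1 := hf1 rfl
    have e0 : f a0 = 0 := hf0 rfl
    simp [F, e1, e0] at h3

end Pool.Agent.Lib.MP_607283_al
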