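import Mathlib

set_option autoImplicit false

/-!
A Heisenberg type central extension of a free abelian group of infinite rank by an arbitrary
abelian topological group `A`.  The group `A` sits inside it as an open central subgroup which is
killed by every finite dimensional linear representation.
-/

namespace Pool.Agent.Lib.MP_607283_al

universe u

/-- The free abelian group on `A × ℕ`. -/
abbrev V (A : Type u) := (A × ℕ) →₀ ℤ

/-- The discrete part. -/
def Disc (A : Type u) : Type u := V A × V A

instance (A : Type u) : TopologicalSpace (Disc A) := ⊥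
instance (A : Type u) : DiscreteTopology (Disc A) := ⟨rfl⟩

/-- The cocycle. -/
noncomputable def beta {A : Type u} [CommGroup A] (v w : V A) : A :=
  v.prod (fun i n => i.1 ^ (n * w i))

variable {A : Type u} [CommGroup A]

theorem beta_add_left (v v' w : V A) : beta (v + v') w = beta v w * beta v' w := by
  unfold beta
  rw [Finsupp.prod_add_index']
  · intro i; simp
  · intro i a b; rw [add_mul, zpow_add]

theorem beta_add_right (v w w' : V A) : beta v (w + w') = beta v w * beta v w' := by
  unfold beta
  rw [← Finsupp.prod_mul]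
  refine Finsupp.prod_congr ?_
  intro i _
  rw [Finsupp.add_apply, mul_add, zpow_add]

@[simp] theorem beta_zero_left (w : V A) : beta (0 : V A) w = 1 := by
  simp [beta]

@[simp] theorem beta_zero_right (v : V A) : beta v (0 : V A) = 1 := by
  simp [beta, Finsupp.prod]

theorem beta_neg_left (v w : V A) : beta (-v) w = (beta v w)⁻¹ := by
  have := beta_add_left (-v) v w
  rw [neg_add_cancel, beta_zero_left] at this
  exact eq_inv_of_mul_eq_one_left this.symm

theorem beta_neg_right (v w : V A) : beta v (-w) = (beta v w)⁻¹ := by
  have := beta_add_right v (-w) w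
  rw [neg_add_cancel, beta_zero_right] at this
  exact eq_inv_of_mul_eq_one_left this.symm

open Classical in
theorem beta_single (i j : A × ℕ) :
    beta (Finsupp.single i (1 : ℤ)) (Finsupp.single j (1 : ℤ)) = if i = j then i.1 else 1 := by
  classical
  unfold beta
  rw [Finsupp.prod_single_index (by simp)]
  by_cases h : i = j
  · subst h; simp
  · simp [h]

/-- The group. -/
@[ext] structure Heis (A : Type u) where
  /-- central coordinate -/
  a : A
  /-- first coordinate -/
  v : V A
  /-- second coordinate -/
  w : V A

noncomputable instance : Group (Heis A) where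
  mul x y := ⟨x.a * y.a * beta x.v y.w, x.v + y.v, x.w + y.w⟩
  one := ⟨1, 0, 0⟩
  inv x := ⟨x.a⁻¹ * beta x.v x.w, -x.v, -x.w⟩
  mul_assoc x y z := by
    refine Heis.ext ?_ (add_assoc _ _ _) (add_assoc _ _ _)
    change x.a * y.a * beta x.v y.w * z.a * beta (x.v + y.v) z.w
      = x.a * (y.a * z.a * beta y.v z.w) * beta x.v (y.w + z.w)
    rw [beta_add_left, beta_add_right]
    simp only [mul_assoc, mul_comm, mul_left_comm]
  one_mul x := by
    refine Heis.ext ?_ (zero_add _) (zero_add _)
    change 1 * x.a * beta 0 x.w = x.a
    simp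
  mul_one x := by
    refine Heis.ext ?_ (add_zero _) (add_zero _)
    change x.a * 1 * beta x.v 0 = x.a
    simp
  inv_mul_cancel x := by
    refine Heis.ext ?_ (neg_add_cancel _) (neg_add_cancel _)
    change x.a⁻¹ * beta x.v x.w * x.a * beta (-x.v) x.w = 1
    rw [beta_neg_left]
    simp only [mul_assoc, mul_comm, mul_inv_cancel, mul_one]

@[simp] theorem mul_a (x y : Heis A) : (x * y).a = x.a * y.a * beta x.v y.w := rfl
@[simp] theorem mul_v (x y : Heis A) : (x * y).v = x.v + y.v := rfl
@[simp] theorem mul_w (x y : Heis A) : (x * y).w = x.w + y.w := rfl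
@[simp] theorem one_a : (1 : Heis A).a = 1 := rfl
@[simp] theorem one_v : (1 : Heis A).v = 0 := rfl
@[simp] theorem one_w : (1 : Heis A).w = 0 := rfl
@[simp] theorem inv_a (x : Heis A) : (x⁻¹).a = x.a⁻¹ * beta x.v x.w := rfl
@[simp] theorem inv_v (x : Heis A) : (x⁻¹).v = -x.v := rfl
@[simp] theorem inv_w (x : Heis A) : (x⁻¹).w = -x.w := rfl

/-- The central embedding of `A`. -/
noncomputable def incl : A →* Heis A where
  toFun a := ⟨a, 0, 0⟩
  map_one' := rfl
  map_mul' a b := by ext <;> simp

@[simp] theorem incl_a (a : A) : (incl a).a = a := rfl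
@[simp] theorem incl_v (a : A) : (incl a).v = 0 := rfl
@[simp] theorem incl_w (a : A) : (incl a).w = 0 := rfl

theorem incl_comm (a : A) (x : Heis A) : incl a * x = x * incl a := by
  ext <;> simp [mul_comm]

/-- The underlying bijection with a product. -/
def toProd : Heis A ≃ A × Disc A where
  toFun x := (x.a, (x.v, x.w))
  invFun p := ⟨p.1, p.2.1, p.2.2⟩
  left_inv _ := rfl
  right_inv _ := rfl

/-- Every homomorphism to the units of a finite dimensional algebra kills `A`. -/
theorem rep_incl {n : ℕ} (ρ : Heis A →* GL (Fin n) ℂ) (a : A) : ρ (incl a) = 1 := by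
  classical
  let p : ℕ → Heis A := fun k => ⟨1, Finsupp.single (a, k) 1, 0⟩
  let q : ℕ → Heis A := fun k => ⟨1, 0, Finsupp.single (a, k) 1⟩
  have hne : ∀ j k, j ≠ k → p j * q k = q k * p j := by
    intro j k hjk
    ext <;> simp [p, q, beta_single, hjk]
  have heq : ∀ k, p k * q k = incl a * (q k * p k) := by
    intro k
    ext <;> simp [p, q, beta_single]
  let P : ℕ → Matrix (Fin n) (Fin n) ℂ := fun k => (ρ (p k) : Matrix (Fin n) (Fin n) ℂ)
  have hdep : ¬ LinearIndependent ℂ P := by
    intro h
    have := h.finite
    exact (Set.infinite_univ (α := ℕ)) (Set.toFinite _)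
  rw [linearIndependent_iff_notMem_span] at hdep
  push Not at hdep
  obtain ⟨k, hk⟩ := hdep
  have hcomm : ∀ M ∈ Submodule.span ℂ (P '' (Set.univ \ {k})),
      M * (ρ (q k) : Matrix (Fin n) (Fin n) ℂ) = (ρ (q k) : Matrix (Fin n) (Fin n) ℂ) * M := by
    intro M hM
    induction hM using Submodule.span_induction with
    | mem M hM =>
      obtain ⟨j, hj, rfl⟩ := hM
      have hjk : j ≠ k := by simpa using hj
      have := congrArg (fun g => ((ρ g : GL (Fin n) ℂ) : Matrix (Fin n) (Fin n) ℂ)) (hne j k hjk)
      simpa [P] using this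
    | zero => simp
    | add M N _ _ h1 h2 => rw [add_mul, mul_add, h1, h2]
    | smul c M _ h1 => rw [smul_mul_assoc, mul_smul_comm, h1]
  have h1 : ρ (p k) * ρ (q k) = ρ (q k) * ρ (p k) := by
    ext1
    simpa [P] using hcomm _ hk
  have h2 := congrArg ρ (heq k)
  rw [map_mul, map_mul, map_mul, h1] at h2
  exact (mul_eq_right.mp h2.symm)

section top

variable [TopologicalSpace A]

instance : TopologicalSpace (Heis A) := TopologicalSpace.induced toProd inferInstance

/-- The underlying homeomorphism with a product. -/
def toProdH : Heis A ≃ₜ A × Disc A :=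
  toProd.toHomeomorphOfIsInducing ⟨rfl⟩

omit [CommGroup A] in
theorem continuous_a : Continuous (fun x : Heis A => x.a) :=
  continuous_fst.comp (toProdH (A := A)).continuous

omit [CommGroup A] in
theorem continuous_d : Continuous (fun x : Heis A => (toProd x).2) :=
  continuous_snd.comp (toProdH (A := A)).continuous

omit [CommGroup A] in
theorem continuous_of_disc {Z : Type*} [TopologicalSpace Z] (f : V A → V A → Z) :
    Continuous (fun x : Heis A => f x.v x.w) :=
  (continuous_of_discreteTopology (f := fun d : Disc A => f d.1 d.2)).comp continuous_d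

instance [IsTopologicalGroup A] : IsTopologicalGroup (Heis A) where
  continuous_mul := by
    rw [continuous_induced_rng]
    have hd : Continuous (fun x : Heis A × Heis A => ((toProd x.1).2, (toProd x.2).2)) :=
      (continuous_d.comp continuous_fst).prodMk (continuous_d.comp continuous_snd)
    refine Continuous.prodMk ?_ ?_
    · refine ((continuous_a.comp continuous_fst).mul (continuous_a.comp continuous_snd)).mul ?_
      exact (continuous_of_discreteTopology
        (f := fun d : Disc A × Disc A => beta d.1.1 d.2.2)).comp hd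
    · exact (continuous_of_discreteTopology
        (β := Disc A)
        (f := fun d : Disc A × Disc A => ((d.1.1 + d.2.1, d.1.2 + d.2.2) : Disc A))).comp hd
  continuous_inv := by
    rw [continuous_induced_rng]
    refine Continuous.prodMk ?_ ?_
    · exact continuous_a.inv.mul (continuous_of_disc beta)
    · exact continuous_of_disc (Z := Disc A) (fun v w => (-v, -w))

instance [T2Space A] : T2Space (Heis A) := (toProdH (A := A)).symm.t2Space

instance [LocallyCompactSpace A] : LocallyCompactSpace (Heis A) :=
  (toProdH (A := A)).isOpenEmbedding.locallyCompactSpace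

theorem continuous_incl : Continuous (incl : A → Heis A) := by
  rw [continuous_induced_rng]
  exact continuous_id.prodMk (continuous_const (Y := Disc A) (y := ((0 : V A), (0 : V A))))

/-- One dimensional representations detecting the coordinates. -/
noncomputable def chi (φ : V A → V A → ℤ)
    (hφ : ∀ v w v' w', φ (v + v') (w + w') = φ v w + φ v' w') : Heis A →ₜ* GL (Fin 1) ℂ where
  toFun x := (Matrix.GeneralLinearGroup.scalar (Fin 1) (Units.mk0 (2 : ℂ) two_ne_zero)) ^ φ x.v x.w
  map_one' := by
    have := hφ 0 0 0 0
    simp only [add_zero] at this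
    have h0 : φ 0 0 = 0 := by omega
    simp [h0]
  map_mul' x y := by simp [hφ, zpow_add]
  continuous_toFun := continuous_of_disc (fun v w =>
    (Matrix.GeneralLinearGroup.scalar (Fin 1) (Units.mk0 (2 : ℂ) two_ne_zero)) ^ φ v w)

theorem chi_eq_one (φ : V A → V A → ℤ)
    (hφ : ∀ v w v' w', φ (v + v') (w + w') = φ v w + φ v' w') (x : Heis A)
    (h : chi φ hφ x = 1) : φ x.v x.w = 0 := by
  have h1 : (Matrix.GeneralLinearGroup.scalar (Fin 1) (Units.mk0 (2 : ℂ) two_ne_zero))
      ^ φ x.v x.w = 1 := h
  have h2 := congrArg Matrix.GeneralLinearGroup.det h1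
  rw [map_zpow, map_one] at h2
  have h3 : ((2 : ℂ)) ^ φ x.v x.w = 1 := by
    have := congrArg (Units.val) h2
    simpa using this
  have h4 : ((2 : ℝ)) ^ φ x.v x.w = 1 := by
    have := congrArg norm h3
    simpa using this
  exact (zpow_eq_one_iff_right₀ (by norm_num) (by norm_num)).mp h4

/-- The intersection of the kernels of all continuous representations is the image of `A`. -/
theorem mem_range_iff (x : Heis A) :
    (∀ (n : ℕ) (ρ : Heis A →ₜ* GL (Fin n) ℂ), ρ x = 1) ↔ x ∈ (incl (A := A)).range := by
  constructor
  · intro h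
    refine ⟨x.a, ?_⟩
    ext i
    · rfl
    · exact (chi_eq_one (fun v _ => v i) (by simp) x (h _ _)).symm
    · exact (chi_eq_one (fun _ w => w i) (by simp) x (h _ _)).symm
  · rintro ⟨a, rfl⟩ n ρ
    exact rep_incl ρ.toMonoidHom a

end top

end Pool.Agent.Lib.MP_607283_al
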