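import Mathlib

set_option autoImplicit false

/-!
Definitions: ordinary representations, Lie groups and pro-Lie groups.
-/

namespace Pool.Agent.Lib.MP_607283_al

open scoped Manifold ContDiff

universe u

/-- `KO G` is the intersection of the kernels of all ordinary representations of `G`, that is of
all continuous homomorphisms from `G` to `GL n ℂ`, `n` a natural number. -/
def KO (G : Type u) [Group G] [TopologicalSpace G] : Subgroup G :=
  ⨅ (n : ℕ) (ρ : G →ₜ* GL (Fin n) ℂ), ρ.toMonoidHom.ker

/-- A group with a topology is a (finite dimensional, real) Lie group: it is Hausdorff and, for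
some `d`, its topology carries the structure of a real analytic manifold modelled on `ℝ ^ d` for
which multiplication and inversion are analytic.  No countability condition is imposed. -/
def IsLie (L : Type u) [Group L] [TopologicalSpace L] : Prop :=
  T2Space L ∧ ∃ (d : ℕ) (_ : ChartedSpace (EuclideanSpace ℝ (Fin d)) L), LieGroup (𝓡 d) ω L

/-- A projective system of Lie groups over a nonempty directed preorder. -/
structure LieSystem : Type (u + 1) where
  /-- the index set -/
  J : Type u
  /-- its order -/
  [ord : Preorder J]
  [nonempty : Nonempty J]
  [directed : IsDirected J (· ≤ ·)]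
  /-- the groups -/
  L : J → Type u
  /-- their group structures -/
  [grp : ∀ j, Group (L j)]
  /-- their topologies -/
  [top : ∀ j, TopologicalSpace (L j)]
  isLie : ∀ j, IsLie (L j)
  /-- the bonding maps, continuous homomorphisms -/
  f : ∀ {j k : J}, j ≤ k → L k →ₜ* L j
  f_refl : ∀ (j : J) (x : L j), f (le_refl j) x = x
  f_trans : ∀ {j k l : J} (hjk : j ≤ k) (hkl : k ≤ l) (x : L l),
    f hjk (f hkl x) = f (hjk.trans hkl) x

attribute [instance] LieSystem.ord LieSystem.grp LieSystem.top

/-- The projective limit: the group of compatible families, a subgroup of the product, with the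
topology induced by the product topology. -/
def LieSystem.limit (S : LieSystem.{u}) : Subgroup (∀ j, S.L j) where
  carrier := {x | ∀ (j k : S.J) (h : j ≤ k), S.f h (x k) = x j}
  mul_mem' := by
    intro x y hx hy j k h
    simp only [Pi.mul_apply, map_mul, hx j k h, hy j k h]
  one_mem' := by
    intro j k h
    simp only [Pi.one_apply, map_one]
  inv_mem' := by
    intro x hx j k h
    simp only [Pi.inv_apply, map_inv, hx j k h]

/-- A pro-Lie group: a topological group which is complete (for its left and for its right
uniformity) and isomorphic, as a topological group, to the projective limit of a projective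
system of Lie groups. -/
def IsProLie (G : Type u) [Group G] [TopologicalSpace G] [IsTopologicalGroup G] : Prop :=
  @CompleteSpace G (IsTopologicalGroup.leftUniformSpace G) ∧
    @CompleteSpace G (IsTopologicalGroup.rightUniformSpace G) ∧
      ∃ S : LieSystem.{u}, Nonempty (G ≃ₜ* S.limit)

end Pool.Agent.Lib.MP_607283_al
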