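import Mathlib
import Pool.Agent.Lib.MP_607283_al.ProLieDefs

set_option autoImplicit false

/-!
A group with arbitrarily small compact normal subgroups with Lie quotients is the projective
limit of these quotients.
-/

namespace Pool.Agent.Lib.MP_607283_al

open scoped Topology Pointwise
open Set Filter

universe u

variable {G : Type u} [Group G] [TopologicalSpace G] [IsTopologicalGroup G]

/-- The natural map between two quotients. -/
def quotMap (N M : Subgroup G) [N.Normal] [M.Normal] (h : N ≤ M) : G ⧸ N →ₜ* G ⧸ M where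
  toMonoidHom := QuotientGroup.map N M (MonoidHom.id G) h
  continuous_toFun := by
    rw [(QuotientGroup.isQuotientMap_mk N).continuous_iff]
    exact QuotientGroup.continuous_mk

omit [IsTopologicalGroup G] in
theorem quotMap_mk (N M : Subgroup G) [N.Normal] [M.Normal] (h : N ≤ M) (g : G) :
    quotMap N M h (g : G ⧸ N) = (g : G ⧸ M) := rfl

theorem exists_system [T2Space G] {J : Type u} [Preorder J] [Nonempty J] [IsDirected J (· ≤ ·)]
    (N : J → Subgroup G) [hN : ∀ j, (N j).Normal] (hanti : ∀ j k, j ≤ k → N k ≤ N j)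
    (hcpt : ∀ j, IsCompact (N j : Set G))
    (hsmall : ∀ V ∈ 𝓝 (1 : G), ∃ j, (N j : Set G) ⊆ V)
    (hlie : ∀ j, IsLie (G ⧸ N j)) : ∃ S : LieSystem.{u}, Nonempty (G ≃ₜ* S.limit) := by
  let S : LieSystem.{u} :=
    { J := J
      L := fun j => G ⧸ N j
      isLie := hlie
      f := fun {j k} h => quotMap (N k) (N j) (hanti j k h)
      f_refl := by
        intro j x
        induction x using QuotientGroup.induction_on with
        | H g => rfl
      f_trans := by
        intro j k l hjk hkl x
        induction x using QuotientGroup.induction_on with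
        | H g => rfl }
  let φ : G →* (∀ j, G ⧸ N j) := MonoidHom.pi fun j => QuotientGroup.mk' (N j)
  have hφ : ∀ g j, φ g j = (g : G ⧸ N j) := fun _ _ => rfl
  have hmem : ∀ g, φ g ∈ S.limit := fun g j k h => rfl
  let Φ : G →* S.limit := φ.codRestrict S.limit hmem
  have hφc : Continuous φ := continuous_pi fun j => QuotientGroup.continuous_mk
  have hind : Topology.IsInducing φ := by
    rw [IsTopologicalGroup.isInducing_iff_nhds_one]
    refine le_antisymm ?_ ?_
    · rw [← tendsto_iff_comap, ← map_one φ]
      exact hφc.continuousAt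
    · intro V hV
      obtain ⟨V', hV', hVV⟩ := exists_nhds_one_split hV
      obtain ⟨j, hj⟩ := hsmall V' hV'
      have h1 : ((↑) : G → G ⧸ N j) '' V' ∈ 𝓝 (1 : G ⧸ N j) :=
        QuotientGroup.isOpenMap_coe.image_mem_nhds hV'
      refine ⟨(fun x : ∀ j, G ⧸ N j => x j) ⁻¹' (((↑) : G → G ⧸ N j) '' V'),
        (continuous_apply j).continuousAt.preimage_mem_nhds h1, ?_⟩
      rintro g ⟨v, hv, hvg⟩
      have h2 : v⁻¹ * g ∈ N j := QuotientGroup.eq.1 hvg
      have := hVV v hv _ (hj h2)
      simpa using this
  have hinj : Function.Injective φ := hind.injective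
  have hsurj : Function.Surjective Φ := by
    rintro ⟨x, hx⟩
    let K : J → Set G := fun j => ((↑) : G → G ⧸ N j) ⁻¹' {x j}
    have hKc : ∀ j, IsCompact (K j) := by
      intro j
      obtain ⟨g, hg⟩ := QuotientGroup.mk_surjective (x j)
      have : K j = (fun n => g * n) '' (N j : Set G) := by
        ext y
        simp only [K, mem_preimage, mem_singleton_iff, ← hg, mem_image, SetLike.mem_coe]
        constructor
        · intro h
          exact ⟨g⁻¹ * y, QuotientGroup.eq.1 h.symm, by simp⟩
        · rintro ⟨n, hn, rfl⟩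
          exact (QuotientGroup.eq.2 (by simpa using hn)).symm
      rw [this]
      exact (hcpt j).image (by fun_prop)
    have hKn : ∀ j, (K j).Nonempty := fun j => QuotientGroup.mk_surjective (x j)
    have hKa : ∀ j k, j ≤ k → K k ⊆ K j := by
      intro j k h g hg
      have h1 : (g : G ⧸ N k) = x k := hg
      have h2 : quotMap (N k) (N j) (hanti j k h) (x k) = x j := hx j k h
      rw [← h1] at h2
      exact h2
    have hdir : Directed (· ⊇ ·) K := by
      intro j k
      obtain ⟨l, h1, h2⟩ := directed_of (· ≤ ·) j k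
      exact ⟨l, hKa _ _ h1, hKa _ _ h2⟩
    obtain ⟨g, hg⟩ := IsCompact.nonempty_iInter_of_directed_nonempty_isCompact_isClosed K hdir hKn
      hKc fun j => (hKc j).isClosed
    refine ⟨g, Subtype.ext (funext fun j => ?_)⟩
    exact mem_iInter.1 hg j
  have hΦind : Topology.IsInducing Φ := hind.codRestrict hmem
  let e : G ≃* S.limit := MulEquiv.ofBijective Φ ⟨hΦind.injective, hsurj⟩
  let eh : G ≃ₜ S.limit := e.toEquiv.toHomeomorphOfIsInducing hΦind
  exact ⟨S, ⟨{ e with
    continuous_toFun := eh.continuous
    continuous_invFun := eh.symm.continuous }⟩⟩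

end Pool.Agent.Lib.MP_607283_al
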