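import Mathlib
import Pool.Agent.Lib.MP_607283_al.ProLieDefs

set_option autoImplicit false

/-!
A topological group with a central, locally additive chart at the identity is a Lie group.
-/

namespace Pool.Agent.Lib.MP_607283_al

open scoped Manifold ContDiff Topology
open Set Filter

universe u

variable {H : Type u} [Group H] [TopologicalSpace H] [IsTopologicalGroup H]
  {E : Type} [NormedAddCommGroup E] [NormedSpace ℝ E]

/-- The translated chart. -/
noncomputable def trChart (e : OpenPartialHomeomorph E H) (g : H) : OpenPartialHomeomorph H E :=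
  (Homeomorph.mulLeft g⁻¹).toOpenPartialHomeomorph ≫ₕ e.symm

omit [NormedSpace ℝ E] in
theorem trChart_apply (e : OpenPartialHomeomorph E H) (g h : H) :
    trChart e g h = e.symm (g⁻¹ * h) := rfl

omit [NormedSpace ℝ E] in
theorem trChart_symm_apply (e : OpenPartialHomeomorph E H) (g : H) (x : E) :
    (trChart e g).symm x = g * e x := by
  simp [trChart, Homeomorph.mulLeft_symm]

omit [NormedSpace ℝ E] in
theorem trChart_source (e : OpenPartialHomeomorph E H) (g h : H) :
    h ∈ (trChart e g).source ↔ g⁻¹ * h ∈ e.target := by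
  simp [trChart]

omit [NormedSpace ℝ E] in
theorem trChart_target (e : OpenPartialHomeomorph E H) (g : H) (x : E) :
    x ∈ (trChart e g).target ↔ x ∈ e.source := by
  simp [trChart]

/-- The charted space structure. -/
@[reducible] noncomputable def trCharted (e : OpenPartialHomeomorph E H) (h1 : (1 : H) ∈ e.target) :
    ChartedSpace E H where
  atlas := range (trChart e)
  chartAt := trChart e
  mem_chart_source g := by rw [trChart_source]; simpa using h1
  chart_mem_atlas g := mem_range_self g

theorem lieGroup_of_chart (e : OpenPartialHomeomorph E H) (h0 : (0 : E) ∈ e.source)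
    (he0 : e 0 = 1)
    (hadd : ∀ x ∈ e.source, ∀ y ∈ e.source, x + y ∈ e.source → e (x + y) = e x * e y)
    (hcen : ∀ x ∈ e.source, ∀ g : H, e x * g = g * e x) :
    ∃ _ : ChartedSpace E H, LieGroup 𝓘(ℝ, E) ω H := by
  have h1 : (1 : H) ∈ e.target := he0 ▸ e.map_source h0
  have hs1 : e.symm 1 = 0 := by rw [← he0, e.left_inv h0]
  have hsrc : e.source ∈ 𝓝 (0 : E) := e.open_source.mem_nhds h0
  let this : ChartedSpace E H := trCharted e h1
  have hchart : ∀ g : H, chartAt E g = trChart e g := fun _ => rfl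
  have hman : IsManifold 𝓘(ℝ, E) ω H := by
    apply isManifold_of_contDiffOn
    rintro _ _ ⟨g, rfl⟩ ⟨h, rfl⟩
    simp only [modelWithCornersSelf_coe, modelWithCornersSelf_coe_symm, Function.comp_id,
      Function.id_comp, preimage_id_eq, id_eq, range_id, inter_univ]
    intro x0 hx0
    refine ContDiffAt.contDiffWithinAt ?_
    rw [OpenPartialHomeomorph.trans_source] at hx0
    obtain ⟨hx1, hx2⟩ := hx0
    rw [OpenPartialHomeomorph.symm_source, trChart_target] at hx1
    rw [mem_preimage, trChart_source, trChart_symm_apply] at hx2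
    set y0 := e.symm (h⁻¹ * (g * e x0)) with hy0
    have hy1 : y0 ∈ e.source := e.map_target hx2
    have hy2 : e y0 = h⁻¹ * (g * e x0) := e.right_inv hx2
    have hev : ((trChart e g).symm ≫ₕ trChart e h : E → E) =ᶠ[𝓝 x0] fun x => y0 + (x - x0) := by
      have a1 : ∀ᶠ x in 𝓝 x0, x ∈ e.source := e.open_source.mem_nhds hx1
      have a2 : ∀ᶠ x in 𝓝 x0, x - x0 ∈ e.source := by
        have : ContinuousAt (fun x : E => x - x0) x0 := by fun_prop
        exact this.preimage_mem_nhds (by simpa using hsrc)
      have a3 : ∀ᶠ x in 𝓝 x0, y0 + (x - x0) ∈ e.source := by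
        have : ContinuousAt (fun x : E => y0 + (x - x0)) x0 := by fun_prop
        exact this.preimage_mem_nhds (by simpa using e.open_source.mem_nhds hy1)
      filter_upwards [a1, a2, a3] with x b1 b2 b3
      rw [OpenPartialHomeomorph.trans_apply, trChart_apply, trChart_symm_apply]
      have c1 : e x = e x0 * e (x - x0) := by
        rw [← hadd x0 hx1 _ b2 (by simpa using b1)]; simp
      have c2 : h⁻¹ * (g * e x) = e (y0 + (x - x0)) := by
        rw [hadd y0 hy1 _ b2 b3, hy2, c1]; simp [mul_assoc]
      rw [c2, e.left_inv b3]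
    exact (ContDiffAt.congr_of_eventuallyEq (by fun_prop) hev)
  refine ⟨this, { toIsManifold := hman, contMDiff_mul := ?_, contMDiff_inv := ?_ }⟩
  · rintro ⟨g, h⟩
    rw [contMDiffAt_iff]
    refine ⟨continuous_mul.continuousAt, ?_⟩
    refine ContDiffAt.contDiffWithinAt ?_
    have hp : extChartAt (𝓘(ℝ, E).prod 𝓘(ℝ, E)) (g, h) (g, h) = ((0 : E), (0 : E)) := by
      simp [hchart, trChart_apply, hs1]
    rw [hp]
    have hev : (extChartAt 𝓘(ℝ, E) (g * h) ∘ (fun p : H × H => p.1 * p.2) ∘
        (extChartAt (𝓘(ℝ, E).prod 𝓘(ℝ, E)) (g, h)).symm) =ᶠ[𝓝 ((0 : E), (0 : E))]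
        fun p : E × E => p.1 + p.2 := by
      have a1 : ∀ᶠ p : E × E in 𝓝 ((0 : E), (0 : E)), p.1 ∈ e.source :=
        continuous_fst.continuousAt.preimage_mem_nhds hsrc
      have a2 : ∀ᶠ p : E × E in 𝓝 ((0 : E), (0 : E)), p.2 ∈ e.source :=
        continuous_snd.continuousAt.preimage_mem_nhds hsrc
      have a3 : ∀ᶠ p : E × E in 𝓝 ((0 : E), (0 : E)), p.1 + p.2 ∈ e.source :=
        continuous_add.continuousAt.preimage_mem_nhds (by simpa using hsrc)
      filter_upwards [a1, a2, a3] with p b1 b2 b3
      have c1 : (g * h)⁻¹ * (g * e p.1 * (h * e p.2)) = e (p.1 + p.2) := by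
        rw [hadd _ b1 _ b2 b3, mul_assoc g, ← mul_assoc (e p.1), hcen _ b1 h]
        group
      simp only [extChartAt_prod, Function.comp_apply, PartialEquiv.prod_symm,
        PartialEquiv.prod_coe]
      simp only [extChartAt, OpenPartialHomeomorph.extend, hchart, modelWithCornersSelf_partialEquiv,
        PartialEquiv.trans_refl, OpenPartialHomeomorph.toFun_eq_coe,
        OpenPartialHomeomorph.coe_toPartialEquiv_symm, trChart_apply, trChart_symm_apply]
      rw [c1, e.left_inv b3]
    exact ContDiffAt.congr_of_eventuallyEq (by fun_prop) hev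
  · intro g
    rw [contMDiffAt_iff]
    refine ⟨continuous_inv.continuousAt, ?_⟩
    refine ContDiffAt.contDiffWithinAt ?_
    have hp : extChartAt 𝓘(ℝ, E) g g = (0 : E) := by
      simp [hchart, trChart_apply, hs1]
    rw [hp]
    have hev : (extChartAt 𝓘(ℝ, E) g⁻¹ ∘ (fun a : H => a⁻¹) ∘
        (extChartAt 𝓘(ℝ, E) g).symm) =ᶠ[𝓝 (0 : E)] fun x : E => -x := by
      have a2 : ∀ᶠ x : E in 𝓝 (0 : E), -x ∈ e.source :=
        continuous_neg.continuousAt.preimage_mem_nhds (by simpa using hsrc)
      filter_upwards [hsrc, a2] with x b1 b2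
      have c0 : e (-x) = (e x)⁻¹ := by
        have := hadd _ b2 _ b1 (by simpa using h0)
        rw [neg_add_cancel, he0] at this
        exact eq_inv_of_mul_eq_one_left this.symm
      have c1 : g⁻¹⁻¹ * (g * e x)⁻¹ = e (-x) := by
        rw [mul_inv_rev, ← c0, inv_inv, ← mul_assoc, ← hcen _ b2 g]
        group
      simp only [extChartAt, OpenPartialHomeomorph.extend, hchart, modelWithCornersSelf_partialEquiv,
        PartialEquiv.trans_refl, OpenPartialHomeomorph.toFun_eq_coe, Function.comp_apply,
        OpenPartialHomeomorph.coe_toPartialEquiv_symm, trChart_apply, trChart_symm_apply]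
      rw [c1, e.left_inv b2]
    exact ContDiffAt.congr_of_eventuallyEq (by fun_prop) hev

/-- The same with any finite dimensional model space. -/
theorem isLie_of_chart [T2Space H] [FiniteDimensional ℝ E] (e : OpenPartialHomeomorph E H)
    (h0 : (0 : E) ∈ e.source) (he0 : e 0 = 1)
    (hadd : ∀ x ∈ e.source, ∀ y ∈ e.source, x + y ∈ e.source → e (x + y) = e x * e y)
    (hcen : ∀ x ∈ e.source, ∀ g : H, e x * g = g * e x) : IsLie H := by
  refine ⟨inferInstance, Module.finrank ℝ E, ?_⟩
  let φ : EuclideanSpace ℝ (Fin (Module.finrank ℝ E)) ≃L[ℝ] E := toEuclidean.symm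
  let e' : OpenPartialHomeomorph (EuclideanSpace ℝ (Fin (Module.finrank ℝ E))) H :=
    φ.toHomeomorph.toOpenPartialHomeomorph ≫ₕ e
  have hs : ∀ x, x ∈ e'.source ↔ φ x ∈ e.source := by intro x; simp [e']
  have ha : ∀ x, e' x = e (φ x) := fun _ => rfl
  refine lieGroup_of_chart e' ?_ ?_ ?_ ?_
  · rw [hs]; simpa using h0
  · rw [ha]; simpa using he0
  · intro x hx y hy hxy
    rw [hs] at hx hy hxy
    rw [map_add] at hxy
    rw [ha, ha, ha, map_add, hadd _ hx _ hy hxy]
  · intro x hx g
    rw [hs] at hx
    exact hcen _ hx g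

end Pool.Agent.Lib.MP_607283_al
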