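import Mathlib

set_option autoImplicit false

/-!
A closed local subgroup of a finite dimensional real vector space agrees near the origin with a
linear subspace.
-/

namespace Pool.Agent.Lib.MP_607283_al

open scoped Topology
open Set Filter Metric

variable {E : Type*} [NormedAddCommGroup E] [NormedSpace ℝ E]

theorem local_nsmul {S : Set E} {r : ℝ} (h0 : (0 : E) ∈ S)
    (hadd : ∀ x ∈ S, ∀ y ∈ S, ‖x + y‖ < r → x + y ∈ S) {z : E} (hz : z ∈ S) :
    ∀ k : ℕ, ‖(k : ℝ) • z‖ < r → (k : ℝ) • z ∈ S := by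
  intro k
  induction k with
  | zero => intro _; simpa using h0
  | succ k ih =>
    intro hk
    have h1 : ‖(k : ℝ) • z‖ < r := by
      refine lt_of_le_of_lt ?_ hk
      rw [norm_smul, norm_smul, Real.norm_natCast, Real.norm_natCast]
      gcongr
      omega
    have h2 : ((k + 1 : ℕ) : ℝ) • z = (k : ℝ) • z + z := by
      push_cast; rw [add_smul, one_smul]
    rw [h2] at hk ⊢
    exact hadd _ (ih h1) _ hz hk

/-- The tangent space of a local subgroup. -/
def localSpan (S : Set E) (r : ℝ) (hr : 0 < r) (h0 : (0 : E) ∈ S)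
    (hadd : ∀ x ∈ S, ∀ y ∈ S, ‖x + y‖ < r → x + y ∈ S) : Submodule ℝ E where
  carrier := {v | ∀ t : ℝ, ‖t • v‖ < r → t • v ∈ S}
  zero_mem' := by intro t _; simpa using h0
  smul_mem' := by
    intro c v hv t ht
    rw [smul_smul] at ht ⊢
    exact hv _ ht
  add_mem' := by
    intro v w hv hw t ht
    obtain ⟨n, hn⟩ : ∃ n : ℕ, (‖t • v‖ + ‖t • w‖) / r < n := exists_nat_gt _
    have hnn : (0 : ℝ) ≤ (‖t • v‖ + ‖t • w‖) / r := by positivity
    have hn0 : (0 : ℝ) < n := lt_of_le_of_lt hnn hn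
    rw [div_lt_iff₀ hr] at hn
    have key : ∀ u : E, ‖t • u‖ < n * r → ‖(t / n) • u‖ < r := by
      intro u hu
      have : (t / n) • u = ((n : ℝ)⁻¹) • (t • u) := by
        rw [smul_smul]; congr 1; field_simp
      rw [this, norm_smul, norm_inv, Real.norm_natCast, inv_mul_lt_iff₀ hn0]
      exact hu
    have a1 : (t / n) • v ∈ S := hv _ (key v (by linarith [norm_nonneg (t • w)]))
    have a2 : (t / n) • w ∈ S := hw _ (key w (by linarith [norm_nonneg (t • v)]))
    have a3 : (t / n) • v + (t / n) • w ∈ S := by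
      refine hadd _ a1 _ a2 ?_
      rw [← smul_add]
      refine key _ ?_
      rw [smul_add]
      exact lt_of_le_of_lt (norm_add_le _ _) hn
    have a4 : t • (v + w) = (n : ℝ) • ((t / n) • v + (t / n) • w) := by
      rw [← smul_add, smul_smul]; congr 1; field_simp
    rw [a4] at ht ⊢
    exact local_nsmul h0 hadd a3 n ht

theorem local_subspace [FiniteDimensional ℝ E] {S : Set E} {r : ℝ} (hr : 0 < r)
    (hcl : IsClosed S) (h0 : (0 : E) ∈ S) (hneg : ∀ x ∈ S, -x ∈ S)
    (hadd : ∀ x ∈ S, ∀ y ∈ S, ‖x + y‖ < r → x + y ∈ S) :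
    ∃ (W : Submodule ℝ E) (ε : ℝ), 0 < ε ∧ ε ≤ r ∧ ∀ x : E, ‖x‖ < ε → (x ∈ S ↔ x ∈ W) := by
  let W := localSpan S r hr h0 hadd
  have hW : ∀ v, v ∈ W ↔ ∀ t : ℝ, ‖t • v‖ < r → t • v ∈ S := fun _ => Iff.rfl
  have hWS : ∀ v ∈ W, ‖v‖ < r → v ∈ S := by
    intro v hv hvr
    simpa using (hW v).1 hv 1 (by simpa using hvr)
  obtain ⟨Z, hZ⟩ := W.exists_isCompl
  let P : E →L[ℝ] E := LinearMap.toContinuousLinearMap (Submodule.projection W Z hZ)
  have hPW : ∀ x, P x ∈ W := fun x => Submodule.projection_apply_mem hZ x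
  have hPZ : ∀ x, x - P x ∈ Z := by
    intro x
    have := Submodule.projection_add_projection_eq_self hZ x
    have h2 : x - P x = Submodule.projection Z W hZ.symm x := by
      rw [sub_eq_iff_eq_add']; exact this.symm
    rw [h2]; exact Submodule.projection_apply_mem hZ.symm x
  by_contra hcon
  push Not at hcon
  have hex : ∀ n : ℕ, ∃ w : E, w ∈ S ∧ w ∈ Z ∧ w ≠ 0 ∧ ‖w‖ < 1 / ((n : ℝ) + 1) := by
    intro n
    have c1 : ∀ᶠ x in 𝓝 (0 : E), ‖P x‖ < r ∧ ‖x - P x‖ < min r (1 / ((n : ℝ) + 1)) := by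
      refine Filter.Eventually.and ?_ ?_
      · have : ContinuousAt (fun x : E => ‖P x‖) 0 := by fun_prop
        exact this.eventually_lt continuousAt_const (by simpa using hr)
      · have : ContinuousAt (fun x : E => ‖x - P x‖) 0 := by fun_prop
        refine this.eventually_lt continuousAt_const ?_
        simp only [map_zero, sub_zero, norm_zero]
        positivity
    obtain ⟨δ, hδ, hδ'⟩ := Metric.eventually_nhds_iff.1 c1
    obtain ⟨x, hx, hx'⟩ := hcon W (min δ r) (lt_min hδ hr) (min_le_right _ _)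
    have hxr : ‖x‖ < r := lt_of_lt_of_le hx (min_le_right _ _)
    have hxδ : dist x 0 < δ := by simpa using lt_of_lt_of_le hx (min_le_left _ _)
    obtain ⟨d1, d2⟩ := hδ' hxδ
    rcases hx' with ⟨hxS, hxW⟩ | ⟨hxS, hxW⟩
    · refine ⟨x - P x, ?_, hPZ x, ?_, lt_of_lt_of_le d2 (min_le_right _ _)⟩
      · rw [sub_eq_add_neg]
        refine hadd _ hxS _ (hneg _ (hWS _ (hPW x) d1)) ?_
        rw [← sub_eq_add_neg]
        exact lt_of_lt_of_le d2 (min_le_left _ _)
      · intro h
        exact hxW ((sub_eq_zero.1 h) ▸ hPW x)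
    · exact absurd (hWS x hxW hxr) hxS
  choose w hwS hwZ hw0 hwn using hex
  let u : ℕ → E := fun n => ‖w n‖⁻¹ • w n
  have hun : ∀ n, u n ∈ sphere (0 : E) 1 ∩ (Z : Set E) := by
    intro n
    refine ⟨?_, Z.smul_mem _ (hwZ n)⟩
    simp [u, norm_smul, hw0 n]
  have hK : IsCompact (sphere (0 : E) 1 ∩ (Z : Set E)) :=
    (isCompact_sphere _ _).inter_right Z.closed_of_finiteDimensional
  obtain ⟨v, ⟨hv1, hvZ⟩, φ, hφ, hlim⟩ := hK.tendsto_subseq hun
  have hv1' : ‖v‖ = 1 := by simpa using hv1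
  have hwlim : Tendsto (fun n => ‖w (φ n)‖) atTop (𝓝 0) := by
    refine squeeze_zero (fun n => norm_nonneg _) (fun n => (hwn (φ n)).le) ?_
    exact tendsto_one_div_add_atTop_nhds_zero_nat.comp hφ.tendsto_atTop
  have hpos : ∀ t : ℝ, 0 ≤ t → t < r → t • v ∈ S := by
    intro t ht htr
    let k : ℕ → ℕ := fun n => ⌊t / ‖w (φ n)‖⌋₊
    have hwp : ∀ n, 0 < ‖w (φ n)‖ := fun n => norm_pos_iff.2 (hw0 _)
    have hk1 : ∀ n, (k n : ℝ) * ‖w (φ n)‖ ≤ t := by
      intro n
      have := Nat.floor_le (a := t / ‖w (φ n)‖) (div_nonneg ht (hwp n).le)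
      rwa [le_div_iff₀ (hwp n)] at this
    have hk2 : ∀ n, t - ‖w (φ n)‖ ≤ (k n : ℝ) * ‖w (φ n)‖ := by
      intro n
      have := (Nat.lt_floor_add_one (t / ‖w (φ n)‖)).le
      rw [div_le_iff₀ (hwp n)] at this
      linarith
    have hk3 : Tendsto (fun n => (k n : ℝ) * ‖w (φ n)‖) atTop (𝓝 t) := by
      refine tendsto_of_tendsto_of_tendsto_of_le_of_le ?_ tendsto_const_nhds hk2 hk1
      simpa using hwlim.const_sub t
    have hk4 : Tendsto (fun n => (k n : ℝ) • w (φ n)) atTop (𝓝 (t • v)) := by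
      have := hk3.smul hlim
      refine this.congr (fun n => ?_)
      simp only [u, Function.comp_apply, smul_smul]
      rw [mul_assoc, mul_inv_cancel₀ (hwp n).ne', mul_one]
    refine hcl.mem_of_tendsto hk4 (Eventually.of_forall fun n => ?_)
    refine local_nsmul h0 hadd (hwS _) _ ?_
    rw [norm_smul, Real.norm_natCast]
    exact lt_of_le_of_lt (hk1 n) htr
  have hvW : v ∈ W := by
    rw [hW]
    intro t ht
    rw [norm_smul, hv1', mul_one, Real.norm_eq_abs] at ht
    rcases le_total 0 t with h | h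
    · exact hpos t h (lt_of_le_of_lt (le_abs_self t) ht)
    · have := hneg _ (hpos (-t) (by linarith) (lt_of_le_of_lt (neg_le_abs t) ht))
      simpa using this
  have : v = 0 := by
    have h := hZ.disjoint
    rw [Submodule.disjoint_def] at h
    exact h v hvW hvZ
  simp [this] at hv1'

end Pool.Agent.Lib.MP_607283_al
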