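import Mathlib
import Pool.Agent.Lib.MP_607283_al.LieChart
import Pool.Agent.Lib.MP_607283_al.LocalSub

set_option autoImplicit false

/-!
If an abelian group `A` maps centrally and openly to `H`, with kernel the small part of the joint
kernel of finitely many characters, then `H` is a Lie group.
-/

namespace Pool.Agent.Lib.MP_607283_al

open scoped Topology Pointwise
open Set Filter Metric

universe u

theorem isLie_of_chars {A : Type*} [CommGroup A] [TopologicalSpace A] [IsTopologicalGroup A]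
    [T2Space A] {H : Type u} [Group H] [TopologicalSpace H] [IsTopologicalGroup H] [T2Space H]
    {ι : Type} [Fintype ι] (χ : ι → A →ₜ* Circle) {U : Set A} (hUc : IsCompact U)
    (hU1 : U ∈ 𝓝 (1 : A)) (hUs : ∀ a ∈ U, a⁻¹ ∈ U)
    (hker : ∀ a ∈ U * U, (∀ i, χ i a = 1) → a ∈ interior U)
    (j : A →* H) (hjc : Continuous j) (hjo : IsOpenMap j)
    (hjz : ∀ (a : A) (g : H), j a * g = g * j a)
    (hjk : ∀ a, j a = 1 ↔ a ∈ U ∧ ∀ i, χ i a = 1) : IsLie H := by
  classical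
  let ψ : A → (ι → Circle) := fun a i => χ i a
  have hψc : Continuous ψ := continuous_pi fun i => (χ i).continuous
  have hψm : ∀ a b, ψ (a * b) = ψ a * ψ b := fun a b => funext fun i => map_mul _ _ _
  have hψi : ∀ a, ψ a⁻¹ = (ψ a)⁻¹ := fun a => funext fun i => map_inv _ _
  have hψ1 : ψ 1 = 1 := funext fun i => map_one _
  let ex : (ι → ℝ) → (ι → Circle) := Pi.map fun _ => Circle.exp
  have hexc : Continuous ex := continuous_pi fun i => Circle.exp.continuous.comp (continuous_apply i)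
  have hexo : IsOpenMap ex := IsOpenMap.piMap (fun _ => isLocalHomeomorph_circleExp.isOpenMap)
    (Eventually.of_forall fun _ => Circle.exp_surjective)
  have hexa : ∀ x y, ex (x + y) = ex x * ex y := fun x y => funext fun i => by
    simp [ex, Circle.exp_add]
  have hexn : ∀ x, ex (-x) = (ex x)⁻¹ := fun x => funext fun i => by
    simp [ex, Circle.exp_neg]
  have hex0 : ex 0 = 1 := funext fun i => by simp [ex]
  have hexi : ∀ x y, ‖x‖ < 1 → ‖y‖ < 1 → ex x = ex y → x = y := by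
    intro x y hx hy h
    funext i
    have h1 : |x i| < 1 := lt_of_le_of_lt (norm_le_pi_norm x i) hx
    have h2 : |y i| < 1 := lt_of_le_of_lt (norm_le_pi_norm y i) hy
    rw [abs_lt] at h1 h2
    refine Circle.exp_injOn_Icc (a := -1) (b := 1) (by linarith [Real.pi_gt_three])
      ⟨h1.1.le, h1.2.le⟩ ⟨h2.1.le, h2.2.le⟩ (congrFun h i)
  have h1U : (1 : A) ∈ U := mem_of_mem_nhds hU1
  have hUU : U ⊆ U * U := fun a ha => ⟨a, ha, 1, h1U, mul_one a⟩
  -- the radius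
  obtain ⟨r, hr, hr1, hrC⟩ : ∃ r : ℝ, 0 < r ∧ r ≤ 1 ∧
      ∀ a ∈ U * U, ∀ x, ‖x‖ < r → ψ a = ex x → a ∈ interior U := by
    have hC : IsCompact ((U * U) \ interior U) := (hUc.mul hUc).diff isOpen_interior
    have hcl : IsClosed (ex ⁻¹' (ψ '' ((U * U) \ interior U))) :=
      (hC.image hψc).isClosed.preimage hexc
    have h0 : (0 : ι → ℝ) ∈ (ex ⁻¹' (ψ '' ((U * U) \ interior U)))ᶜ := by
      rintro ⟨a, ⟨ha1, ha2⟩, ha3⟩
      rw [hex0] at ha3
      exact ha2 (hker a ha1 fun i => congrFun ha3 i)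
    obtain ⟨δ, hδ, hδ'⟩ := Metric.isOpen_iff.1 hcl.isOpen_compl 0 h0
    refine ⟨min δ 1, lt_min hδ one_pos, min_le_right _ _, ?_⟩
    intro a ha x hx hax
    by_contra hcon
    refine hδ' (show x ∈ ball 0 δ from ?_) ⟨a, ⟨ha, hcon⟩, hax⟩
    simpa using lt_of_lt_of_le hx (min_le_left _ _)
  let S : Set (ι → ℝ) := ex ⁻¹' (ψ '' U)
  have hScl : IsClosed S := (hUc.image hψc).isClosed.preimage hexc
  have hS0 : (0 : ι → ℝ) ∈ S := ⟨1, h1U, by rw [hψ1, hex0]⟩
  have hSn : ∀ x ∈ S, -x ∈ S := by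
    rintro x ⟨a, ha, hax⟩
    exact ⟨a⁻¹, hUs a ha, by rw [hψi, hexn, hax]⟩
  have hSa : ∀ x ∈ S, ∀ y ∈ S, ‖x + y‖ < r → x + y ∈ S := by
    rintro x ⟨a, ha, hax⟩ y ⟨b, hb, hby⟩ hxy
    have h : ψ (a * b) = ex (x + y) := by rw [hψm, hexa, hax, hby]
    exact ⟨a * b, interior_subset (hrC _ (mul_mem_mul ha hb) _ hxy h), h⟩
  obtain ⟨W, ε, hε, hεr, hW⟩ := local_subspace hr hScl hS0 hSn hSa
  have hwd : ∀ a ∈ U, ∀ b ∈ U, ψ a = ψ b → j a = j b := by
    intro a ha b hb hab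
    have h : ψ (a * b⁻¹) = 1 := by rw [hψm, hψi, hab, mul_inv_cancel]
    have h2 : j (a * b⁻¹) = 1 := by
      rw [hjk]
      exact ⟨interior_subset (hker _ (mul_mem_mul ha (hUs b hb)) fun i => congrFun h i),
        fun i => congrFun h i⟩
    rw [map_mul, map_inv] at h2
    exact mul_inv_eq_one.1 h2
  have hwd' : ∀ a b, j a = j b → ψ a = ψ b := by
    intro a b hab
    have h2 : j (a * b⁻¹) = 1 := by rw [map_mul, map_inv, hab, mul_inv_cancel]
    have h3 : ψ (a * b⁻¹) = 1 := funext ((hjk _).1 h2).2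
    rw [hψm, hψi] at h3
    exact mul_inv_eq_one.1 h3
  let s : (ι → ℝ) → A := fun x => if h : x ∈ S then h.choose else 1
  have hs : ∀ x ∈ S, s x ∈ U ∧ ψ (s x) = ex x := by
    intro x hx
    simp only [s, dif_pos hx]
    exact hx.choose_spec
  let σ : W → H := fun x => j (s x)
  let B : Set W := ball 0 ε
  have hB : ∀ x : W, x ∈ B ↔ ‖(x : ι → ℝ)‖ < ε := fun x => by simp [B]
  have hBS : ∀ x ∈ B, (x : ι → ℝ) ∈ S := fun x hx => (hW x ((hB x).1 hx)).2 x.2
  have hσ : ∀ x ∈ B, ∀ a ∈ U, ψ a = ex x → σ x = j a := by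
    intro x hx a ha hax
    obtain ⟨h1, h2⟩ := hs x (hBS x hx)
    exact hwd _ h1 _ ha (h2.trans hax.symm)
  have hinj : InjOn σ B := by
    intro x hx y hy hxy
    have h := hwd' _ _ hxy
    rw [(hs x (hBS x hx)).2, (hs y (hBS y hy)).2] at h
    exact Subtype.ext (hexi _ _ (by linarith [(hB x).1 hx]) (by linarith [(hB y).1 hy]) h)
  have hcont : ContinuousOn σ B := by
    rw [continuousOn_iff_isClosed]
    intro Z hZ
    refine ⟨Subtype.val ⁻¹' (ex ⁻¹' (ψ '' (U ∩ j ⁻¹' Z))), ?_, ?_⟩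
    · exact (((hUc.inter_right (hZ.preimage hjc)).image hψc).isClosed.preimage hexc).preimage
        continuous_subtype_val
    · ext x
      constructor
      · rintro ⟨h1, h2⟩
        exact ⟨⟨s x, ⟨(hs x (hBS x h2)).1, h1⟩, (hs x (hBS x h2)).2⟩, h2⟩
      · rintro ⟨⟨a, ⟨ha1, ha2⟩, ha3⟩, h2⟩
        refine ⟨?_, h2⟩
        rw [mem_preimage, hσ x h2 a ha1 ha3]
        exact ha2
  have hopen : IsOpenMap (B.domRestrict σ) := by
    intro O hO
    obtain ⟨O1, hO1, rfl⟩ := isOpen_induced_iff.1 hO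
    obtain ⟨O2, hO2, rfl⟩ := isOpen_induced_iff.1 hO1
    have heq : B.domRestrict σ '' (Subtype.val ⁻¹' (Subtype.val ⁻¹' O2)) =
        j '' (interior U ∩ ψ ⁻¹' (ex '' (O2 ∩ ball 0 ε))) := by
      ext g
      constructor
      · rintro ⟨⟨x, hx⟩, hx2, rfl⟩
        obtain ⟨h1, h2⟩ := hs x (hBS x hx)
        refine ⟨s x, ⟨hrC _ (hUU h1) x (lt_of_lt_of_le ((hB x).1 hx) hεr) h2, x, ⟨hx2, ?_⟩,
          h2.symm⟩, rfl⟩
        simpa using (hB x).1 hx
      · rintro ⟨a, ⟨ha1, x, ⟨hx1, hx2⟩, hx3⟩, rfl⟩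
        have hx4 : ‖x‖ < ε := by simpa using hx2
        have hxW : x ∈ W := (hW x hx4).1 ⟨a, interior_subset ha1, hx3.symm⟩
        have hxB : (⟨x, hxW⟩ : W) ∈ B := (hB _).2 hx4
        exact ⟨⟨⟨x, hxW⟩, hxB⟩, hx1, hσ _ hxB a (interior_subset ha1) hx3.symm⟩
    rw [heq]
    exact hjo _ (isOpen_interior.inter ((hexo _ (hO2.inter isOpen_ball)).preimage hψc))
  let e : OpenPartialHomeomorph W H :=
    OpenPartialHomeomorph.ofContinuousOpenRestrict (hinj.toPartialEquiv σ B) hcont hopen isOpen_ball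
  have hes : e.source = B := rfl
  have hea : ∀ x, e x = σ x := fun _ => rfl
  have h0B : (0 : W) ∈ B := mem_ball_self hε
  refine isLie_of_chart e h0B ?_ ?_ ?_
  · rw [hea, hσ 0 h0B 1 h1U (by rw [hψ1]; exact hex0.symm), map_one]
  · intro x hx y hy hxy
    rw [hes] at hx hy hxy
    obtain ⟨h1, h2⟩ := hs x (hBS x hx)
    obtain ⟨h3, h4⟩ := hs y (hBS y hy)
    have h : ψ (s x * s y) = ex ((x + y : W) : ι → ℝ) := by
      rw [hψm, h2, h4, Submodule.coe_add, hexa]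
    rw [hea, hea, hea, hσ _ hxy (s x * s y) (interior_subset (hrC _ (mul_mem_mul h1 h3) _
      (lt_of_lt_of_le ((hB _).1 hxy) hεr) h)) h, map_mul]
  · intro x _ g
    exact hjz _ g

end Pool.Agent.Lib.MP_607283_al
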