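import Mathlib
import Pool.Agent.Lib.MP_607283_al.Heis
import Pool.Agent.Lib.MP_607283_al.Chars
import Pool.Agent.Lib.MP_607283_al.QuotLie
import Pool.Agent.Lib.MP_607283_al.Limit

set_option autoImplicit false

/-!
A locally compact group with an open central subgroup is a pro-Lie group; application to `Heis A`.
-/

namespace Pool.Agent.Lib.MP_607283_al

open scoped Topology Pointwise
open Set Filter

universe u

theorem complete_right (G : Type u) [Group G] [TopologicalSpace G] [IsTopologicalGroup G]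
    [LocallyCompactSpace G] : @CompleteSpace G (IsTopologicalGroup.rightUniformSpace G) := by
  let _ := IsTopologicalGroup.rightUniformSpace G
  have : IsRightUniformGroup G := ⟨rfl⟩
  exact IsRightUniformGroup.completeSpace_of_weaklyLocallyCompactSpace

theorem complete_left (G : Type u) [Group G] [TopologicalSpace G] [IsTopologicalGroup G]
    [LocallyCompactSpace G] : @CompleteSpace G (IsTopologicalGroup.leftUniformSpace G) := by
  let _ := IsTopologicalGroup.leftUniformSpace G
  refine ⟨fun {f} hf => ?_⟩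
  have : f.NeBot := hf.1
  obtain ⟨K, hK, hK1⟩ := exists_compact_mem_nhds (1 : G)
  obtain ⟨x, hx⟩ : ∃ x, ∀ᶠ y in f, x⁻¹ * y ∈ K := by
    rw [cauchy_iff_le, uniformity_eq_comap_nhds_one_left, ← tendsto_iff_comap] at hf
    exact (hf.eventually_mem hK1).curry.exists
  have hc : IsComplete ((fun k => x * k) '' K) := (hK.image (by fun_prop)).isComplete
  obtain ⟨l, -, hl⟩ := hc f hf (le_principal_iff.2 (hx.mono fun y hy => ⟨_, hy, by simp⟩))
  exact ⟨l, hl⟩

theorem isProLie_of_central {A : Type u} [CommGroup A] [TopologicalSpace A] [IsTopologicalGroup A]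
    [T2Space A] [LocallyCompactSpace A] {G : Type u} [Group G] [TopologicalSpace G]
    [IsTopologicalGroup G] [T2Space G] [LocallyCompactSpace G] (i : A →* G)
    (hic : Continuous i) (hio : IsOpenMap i) (hii : Function.Injective i)
    (hiz : ∀ (a : A) (g : G), i a * g = g * i a) : IsProLie G := by
  classical
  refine ⟨complete_left G, complete_right G, ?_⟩
  obtain ⟨K, hKc, hK1⟩ := exists_compact_mem_nhds (1 : A)
  let U : Set A := K ∩ K⁻¹
  have hUc : IsCompact U := hKc.inter hKc.inv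
  have hU1 : U ∈ 𝓝 (1 : A) := inter_mem hK1 (inv_mem_nhds_one A hK1)
  have hUs : ∀ a ∈ U, a⁻¹ ∈ U := fun a ha => ⟨ha.2, by simpa using ha.1⟩
  have hfin : ∀ C : Set A, IsCompact C → (1 : A) ∉ C →
      ∃ F : Finset (A →ₜ* Circle), ∀ a ∈ C, ∃ χ ∈ F, χ a ≠ 1 := by
    intro C hC h1
    obtain ⟨F, hF⟩ := hC.elim_finite_subcover (fun χ : A →ₜ* Circle => {a | χ a ≠ 1})
      (fun χ => isOpen_ne_fun χ.continuous continuous_const) (by
        intro a ha
        obtain ⟨χ, hχ⟩ := exists_char (a0 := a) (fun h => h1 (h ▸ ha))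
        exact mem_iUnion.2 ⟨χ, hχ⟩)
    refine ⟨F, fun a ha => ?_⟩
    simpa using hF ha
  obtain ⟨F0, hF0⟩ := hfin ((U * U) \ interior U) ((hUc.mul hUc).diff isOpen_interior)
    (fun h => h.2 (mem_interior_iff_mem_nhds.2 hU1))
  have hker : ∀ (F : Finset (A →ₜ* Circle)), ∀ a ∈ U * U, (∀ χ ∈ F0 ∪ F, χ a = 1) →
      a ∈ interior U := by
    intro F a ha h
    by_contra hcon
    obtain ⟨χ, h1, h2⟩ := hF0 a ⟨ha, hcon⟩
    exact h2 (h χ (Finset.mem_union_left _ h1))
  let M : Finset (A →ₜ* Circle) → Subgroup A := fun F =>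
    { carrier := {a | a ∈ U ∧ ∀ χ ∈ F0 ∪ F, χ a = 1}
      one_mem' := ⟨mem_of_mem_nhds hU1, fun χ _ => map_one χ⟩
      mul_mem' := by
        rintro a b ⟨ha, ha'⟩ ⟨hb, hb'⟩
        have h : ∀ χ ∈ F0 ∪ F, χ (a * b) = 1 := fun χ hχ => by
          rw [map_mul, ha' χ hχ, hb' χ hχ, mul_one]
        exact ⟨interior_subset (hker F _ (mul_mem_mul ha hb) h), h⟩
      inv_mem' := by
        rintro a ⟨ha, ha'⟩
        exact ⟨hUs a ha, fun χ hχ => by rw [map_inv, ha' χ hχ, inv_one]⟩ }
  have hM : ∀ F a, a ∈ M F ↔ a ∈ U ∧ ∀ χ ∈ F0 ∪ F, χ a = 1 := fun _ _ => Iff.rfl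
  have hMc : ∀ F, IsCompact (M F : Set A) := by
    intro F
    have : (M F : Set A) = U ∩ ⋂ χ ∈ F0 ∪ F, {a | χ a = 1} := by
      ext a
      simp only [SetLike.mem_coe, hM, mem_inter_iff, mem_iInter, mem_ofPred_eq]
    rw [this]
    exact hUc.inter_right (isClosed_biInter fun χ _ => isClosed_eq χ.continuous continuous_const)
  let N : Finset (A →ₜ* Circle) → Subgroup G := fun F => (M F).map i
  have hN : ∀ F, (N F).Normal := fun F => ⟨by
    rintro _ ⟨a, ha, rfl⟩ g
    rw [← hiz, mul_inv_cancel_right]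
    exact ⟨a, ha, rfl⟩⟩
  have hNc : ∀ F, IsCompact (N F : Set G) := fun F => (hMc F).image hic
  refine exists_system N ?_ hNc ?_ ?_
  · intro F F' h
    refine Subgroup.map_mono fun a ha => ?_
    rw [hM] at ha ⊢
    exact ⟨ha.1, fun χ hχ => ha.2 χ (Finset.union_subset_union_right h hχ)⟩
  · intro V hV
    have hV' : i ⁻¹' V ∈ 𝓝 (1 : A) := hic.continuousAt.preimage_mem_nhds (by simpa using hV)
    obtain ⟨F, hF⟩ := hfin (U \ interior (i ⁻¹' V)) (hUc.diff isOpen_interior)
      (fun h => h.2 (mem_interior_iff_mem_nhds.2 hV'))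
    refine ⟨F, ?_⟩
    rintro _ ⟨a, ha, rfl⟩
    have ha' := (hM F a).1 ha
    by_contra hcon
    obtain ⟨χ, h1, h2⟩ := hF a ⟨ha'.1, fun h => hcon (interior_subset h :)⟩
    exact h2 (ha'.2 χ (Finset.mem_union_right _ h1))
  · intro F
    have hcl : IsClosed (N F : Set G) := (hNc F).isClosed
    let n := (F0 ∪ F).card
    let χ : Fin n → A →ₜ* Circle := fun k => ((F0 ∪ F).equivFin.symm k : A →ₜ* Circle)
    have hχ : ∀ a, (∀ k, χ k a = 1) ↔ ∀ ξ ∈ F0 ∪ F, ξ a = 1 := by
      intro a
      constructor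
      · intro h ξ hξ
        simpa [χ] using h ((F0 ∪ F).equivFin ⟨ξ, hξ⟩)
      · intro h k
        exact h _ ((F0 ∪ F).equivFin.symm k).2
    refine isLie_of_chars χ hUc hU1 hUs (fun a ha h => hker F a ha ((hχ a).1 h))
      ((QuotientGroup.mk' (N F)).comp i) (QuotientGroup.continuous_mk.comp hic)
      (QuotientGroup.isOpenMap_coe.comp hio) ?_ ?_
    · intro a g
      induction g using QuotientGroup.induction_on with
      | H g =>
        change ((i a * g : G) : G ⧸ N F) = ((g * i a : G) : G ⧸ N F)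
        rw [hiz]
    · intro a
      rw [hχ, ← hM]
      change ((i a : G) : G ⧸ N F) = 1 ↔ _
      rw [QuotientGroup.eq_one_iff]
      exact Subgroup.mem_map_iff_mem hii

theorem isOpenMap_incl {A : Type u} [CommGroup A] [TopologicalSpace A] :
    IsOpenMap (incl : A → Heis A) := by
  have h1 : IsOpenMap (fun a : A => (a, (show Disc A from ((0 : V A), (0 : V A))))) := by
    intro O hO
    have : (fun a : A => (a, (show Disc A from ((0 : V A), (0 : V A))))) '' O =
        O ×ˢ {(show Disc A from ((0 : V A), (0 : V A)))} := by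
      rw [prod_singleton]
    rw [this]
    exact hO.prod (isOpen_discrete _)
  exact (toProdH (A := A)).symm.isOpenMap.comp h1

theorem isProLie_heis (A : Type u) [CommGroup A] [TopologicalSpace A] [IsTopologicalGroup A]
    [T2Space A] [LocallyCompactSpace A] : IsProLie (Heis A) :=
  isProLie_of_central incl continuous_incl isOpenMap_incl
    (fun _ _ h => congrArg Heis.a h) incl_comm

end Pool.Agent.Lib.MP_607283_al
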